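import Pool.Agent.Helper92.LV.Stmts
import Pool.Agent.Helper99.LK.KPOT

set_option autoImplicit false

open Filter Topology NumberField Pool.Agent.Helper42.LS Pool.Agent.Helper42.LK

namespace Pool.Agent.Helper92.LV

theorem kpot2_id {K : Type} [Field K] [NumberField K] (x c : ℕ → K)
    (hc : ∀ k : ℕ, 1 ≤ k → c k ≠ 0) (S : Finset (FinitePlace K))
    (U : FinitePlace K → ℕ → ℝ) (Ui : InfinitePlace K → ℕ → ℝ)
    (hN : ∀ v : FinitePlace K, v ∉ S → ∀ k : ℕ, 1 ≤ k →
      4 * Real.log (max (v (x k)) 1) = Real.log (max (v (x (2 * k))) 1) + Real.log (v (c k)))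
    (k : ℕ) (hk : 1 ≤ k) :
    4 * KPOT_V x S U Ui k - KPOT_V x S U Ui (2 * k) =
      ∑ v ∈ S, (4 * U v k - U v (2 * k) - Real.log (v (c k))) +
      ∑ w : InfinitePlace K, (w.mult : ℝ) * (4 * Ui w k - Ui w (2 * k) - Real.log (w (c k))) := by
  classical
  set T : Finset (FinitePlace K) := S ∪ (KPOT_a_supp x S U k).toFinset ∪
    (KPOT_a_supp x S U (2 * k)).toFinset ∪ (KPOT_supp_log (hc k hk)).toFinset with hT
  have hST : S ⊆ T := by
    intro v hv
    simp only [hT, Finset.mem_union]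
    exact Or.inl (Or.inl (Or.inl hv))
  have e1 : ∑ᶠ v : FinitePlace K, KPOT_a x S U k v = ∑ v ∈ T, KPOT_a x S U k v := by
    apply KPOT_sum_eq
    intro v hv
    simp only [hT, Finset.coe_union, Set.Finite.coe_toFinset, Set.mem_union]
    exact Or.inl (Or.inl (Or.inr hv))
  have e2 : ∑ᶠ v : FinitePlace K, KPOT_a x S U (2 * k) v =
      ∑ v ∈ T, KPOT_a x S U (2 * k) v := by
    apply KPOT_sum_eq
    intro v hv
    simp only [hT, Finset.coe_union, Set.Finite.coe_toFinset, Set.mem_union]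
    exact Or.inl (Or.inr hv)
  have e3 : ∑ᶠ v : FinitePlace K, Real.log (v (c k)) = ∑ v ∈ T, Real.log (v (c k)) := by
    apply KPOT_sum_eq
    intro v hv
    simp only [hT, Finset.coe_union, Set.Finite.coe_toFinset, Set.mem_union]
    exact Or.inr hv
  have hpf := KPOT_prod (hc k hk)
  rw [e3] at hpf
  have hfin : ∑ v ∈ S, (4 * U v k - U v (2 * k) - Real.log (v (c k))) =
      ∑ v ∈ T, (4 * KPOT_a x S U k v - KPOT_a x S U (2 * k) v - Real.log (v (c k))) := by
    rw [← Finset.sum_subset hST]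
    · apply Finset.sum_congr rfl
      intro v hv
      rw [KPOT_a_mem x S U k v hv, KPOT_a_mem x S U (2 * k) v hv]
    · intro v _ hv
      rw [KPOT_a_not x S U k v hv, KPOT_a_not x S U (2 * k) v hv, hN v hv k hk]
      ring
  have hinf : ∑ w : InfinitePlace K,
      (w.mult : ℝ) * (4 * Ui w k - Ui w (2 * k) - Real.log (w (c k))) =
      4 * ∑ w : InfinitePlace K, (w.mult : ℝ) * Ui w k -
        ∑ w : InfinitePlace K, (w.mult : ℝ) * Ui w (2 * k) -
        ∑ w : InfinitePlace K, (w.mult : ℝ) * Real.log (w (c k)) := by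
    rw [Finset.mul_sum, ← Finset.sum_sub_distrib, ← Finset.sum_sub_distrib]
    apply Finset.sum_congr rfl
    intro w _
    ring
  have hfin2 : ∑ v ∈ T, (4 * KPOT_a x S U k v - KPOT_a x S U (2 * k) v - Real.log (v (c k))) =
      4 * ∑ v ∈ T, KPOT_a x S U k v - ∑ v ∈ T, KPOT_a x S U (2 * k) v -
        ∑ v ∈ T, Real.log (v (c k)) := by
    rw [Finset.mul_sum, ← Finset.sum_sub_distrib, ← Finset.sum_sub_distrib]
  rw [hfin, hfin2, hinf]
  unfold KPOT_V
  rw [e1, e2]
  linarith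

theorem kpot2_hid {K : Type} [Field K] [NumberField K] (x : ℕ → K) (S : Finset (FinitePlace K))
    (U : FinitePlace K → ℕ → ℝ) (Ui : InfinitePlace K → ℕ → ℝ) (k : ℕ) :
    KPOT_V x S U Ui k - Height.logHeight₁ (x k) =
      ∑ v ∈ S, (U v k - Real.log (max (v (x k)) 1)) +
      ∑ w : InfinitePlace K, (w.mult : ℝ) * (Ui w k - Real.log (max (w (x k)) 1)) := by
  classical
  set T : Finset (FinitePlace K) := S ∪ (KPOT_a_supp x S U k).toFinset ∪
    (KPOT_supp_max (x k)).toFinset with hT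
  have hST : S ⊆ T := by
    intro v hv
    simp only [hT, Finset.mem_union]
    exact Or.inl (Or.inl hv)
  have e1 : ∑ᶠ v : FinitePlace K, KPOT_a x S U k v = ∑ v ∈ T, KPOT_a x S U k v := by
    apply KPOT_sum_eq
    intro v hv
    simp only [hT, Finset.coe_union, Set.Finite.coe_toFinset, Set.mem_union]
    exact Or.inl (Or.inr hv)
  have e2 : ∑ᶠ v : FinitePlace K, Real.log (max (v (x k)) 1) =
      ∑ v ∈ T, Real.log (max (v (x k)) 1) := by
    apply KPOT_sum_eq
    intro v hv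
    simp only [hT, Finset.coe_union, Set.Finite.coe_toFinset, Set.mem_union]
    exact Or.inr hv
  have hfin : ∑ v ∈ S, (U v k - Real.log (max (v (x k)) 1)) =
      ∑ v ∈ T, (KPOT_a x S U k v - Real.log (max (v (x k)) 1)) := by
    rw [← Finset.sum_subset hST]
    · apply Finset.sum_congr rfl
      intro v hv
      rw [KPOT_a_mem x S U k v hv]
    · intro v _ hv
      rw [KPOT_a_not x S U k v hv]
      ring
  have hinf : ∑ w : InfinitePlace K, (w.mult : ℝ) * (Ui w k - Real.log (max (w (x k)) 1)) =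
      ∑ w : InfinitePlace K, (w.mult : ℝ) * Ui w k -
        ∑ w : InfinitePlace K, (w.mult : ℝ) * Real.log (max (w (x k)) 1) := by
    rw [← Finset.sum_sub_distrib]
    apply Finset.sum_congr rfl
    intro w _
    ring
  rw [hfin, Finset.sum_sub_distrib, hinf]
  unfold KPOT_V
  rw [KPOT_height, e1, e2]
  ring

theorem kpot2_step {K : Type} [Field K] [NumberField K] (x c : ℕ → K)
    (hc : ∀ k : ℕ, 1 ≤ k → c k ≠ 0) (S : Finset (FinitePlace K))
    (U : FinitePlace K → ℕ → ℝ) (D : FinitePlace K → ℝ) (Ui : InfinitePlace K → ℕ → ℝ) (C₀ : ℝ)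
    (hS : ∀ v ∈ S, ∀ k : ℕ, 1 ≤ k → |4 * U v k - U v (2 * k) - Real.log (v (c k))| ≤ D v)
    (hN : ∀ v : FinitePlace K, v ∉ S → ∀ k : ℕ, 1 ≤ k →
      4 * Real.log (max (v (x k)) 1) = Real.log (max (v (x (2 * k))) 1) + Real.log (v (c k)))
    (hI : ∀ w : InfinitePlace K, ∀ k : ℕ, 1 ≤ k →
      |4 * Ui w k - Ui w (2 * k) - Real.log (w (c k))| ≤ C₀)
    (k : ℕ) (hk : 1 ≤ k) :
    |4 * KPOT_V x S U Ui k - KPOT_V x S U Ui (2 * k)| ≤
      ∑ v ∈ S, D v + Module.finrank ℚ K * C₀ := by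
  rw [kpot2_id x c hc S U Ui hN k hk]
  have h1 : |∑ v ∈ S, (4 * U v k - U v (2 * k) - Real.log (v (c k)))| ≤ ∑ v ∈ S, D v :=
    (Finset.abs_sum_le_sum_abs _ _).trans (Finset.sum_le_sum fun v hv => hS v hv k hk)
  have hd : ∑ w : InfinitePlace K, (w.mult : ℝ) = Module.finrank ℚ K := by
    have h := InfinitePlace.sum_mult_eq (K := K)
    exact_mod_cast h
  have h2 : |∑ w : InfinitePlace K,
      (w.mult : ℝ) * (4 * Ui w k - Ui w (2 * k) - Real.log (w (c k)))| ≤
        Module.finrank ℚ K * C₀ := by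
    rw [← hd, Finset.sum_mul]
    refine (Finset.abs_sum_le_sum_abs _ _).trans (Finset.sum_le_sum fun w _ => ?_)
    rw [abs_mul, abs_of_nonneg (Nat.cast_nonneg w.mult)]
    exact mul_le_mul_of_nonneg_left (hI w k hk) (Nat.cast_nonneg _)
  exact (abs_add_le _ _).trans (add_le_add h1 h2)

theorem kpot2_height {K : Type} [Field K] [NumberField K] (x : ℕ → K)
    (S : Finset (FinitePlace K))
    (U : FinitePlace K → ℕ → ℝ) (Ui : InfinitePlace K → ℕ → ℝ)
    (hS : ∀ v ∈ S, ∃ C : ℝ, ∀ k : ℕ, 1 ≤ k → |U v k - Real.log (max (v (x k)) 1)| ≤ C)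
    (hI : ∀ w : InfinitePlace K, ∃ C : ℝ, ∀ k : ℕ, 1 ≤ k →
      |Ui w k - Real.log (max (w (x k)) 1)| ≤ C) :
    ∃ C : ℝ, ∀ k : ℕ, 1 ≤ k → |KPOT_V x S U Ui k - Height.logHeight₁ (x k)| ≤ C := by
  choose! CS hCS using hS
  choose CI hCI using hI
  refine ⟨∑ v ∈ S, CS v + ∑ w : InfinitePlace K, (w.mult : ℝ) * CI w, fun k hk => ?_⟩
  rw [kpot2_hid x S U Ui k]
  have h1 : |∑ v ∈ S, (U v k - Real.log (max (v (x k)) 1))| ≤ ∑ v ∈ S, CS v :=
    (Finset.abs_sum_le_sum_abs _ _).trans (Finset.sum_le_sum fun v hv => hCS v hv k hk)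
  have h2 : |∑ w : InfinitePlace K, (w.mult : ℝ) * (Ui w k - Real.log (max (w (x k)) 1))| ≤
      ∑ w : InfinitePlace K, (w.mult : ℝ) * CI w := by
    refine (Finset.abs_sum_le_sum_abs _ _).trans (Finset.sum_le_sum fun w _ => ?_)
    rw [abs_mul, abs_of_nonneg (Nat.cast_nonneg w.mult)]
    exact mul_le_mul_of_nonneg_left (hCI w k hk) (Nat.cast_nonneg _)
  exact (abs_add_le _ _).trans (add_le_add h1 h2)

theorem kpot2_value {K : Type} [Field K] [NumberField K] (x : ℕ → K)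
    (S : Finset (FinitePlace K))
    (U : FinitePlace K → ℕ → ℝ) (Ui : InfinitePlace K → ℕ → ℝ) (k : ℕ)
    (T : Finset (FinitePlace K)) (hT : ∀ v ∈ T, v ∉ S)
    (hout : ∀ v : FinitePlace K, v ∉ S → v ∉ T → v (x k) ≤ 1) :
    KPOT_V x S U Ui k = ∑ v ∈ S, U v k + ∑ v ∈ T, Real.log (max (v (x k)) 1) +
      ∑ w : InfinitePlace K, (w.mult : ℝ) * Ui w k := by
  classical
  have hdisj : Disjoint S T := by
    rw [Finset.disjoint_left]
    intro v hvS hvT
    exact hT v hvT hvS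
  have e1 : ∑ᶠ v : FinitePlace K, KPOT_a x S U k v = ∑ v ∈ S ∪ T, KPOT_a x S U k v := by
    apply KPOT_sum_eq
    intro v hv
    rw [Finset.coe_union]
    by_contra hcon
    have hvS : v ∉ S := fun h => hcon (Or.inl h)
    have hvT : v ∉ T := fun h => hcon (Or.inr h)
    apply hv
    show KPOT_a x S U k v = 0
    rw [KPOT_a_not x S U k v hvS, max_eq_right (hout v hvS hvT), Real.log_one]
  unfold KPOT_V
  rw [e1, Finset.sum_union hdisj]
  congr 2
  · exact Finset.sum_congr rfl fun v hv => KPOT_a_mem x S U k v hv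
  · exact Finset.sum_congr rfl fun v hv => KPOT_a_not x S U k v (hT v hv)

theorem st_KPOT2 : ST_KPOT2 := by
  intro K _ _ x c e he hc S U D Ui C₀ hS hN hI hSb hIb k hk T hT hout
  obtain ⟨C', hC'⟩ := kpot2_height x S U Ui hSb hIb
  have hstep := kpot2_step x c hc S U D Ui C₀ hS hN hI
  have h1 := KPOT_limit (KPOT_V x S U Ui) (fun k => Height.logHeight₁ (x k))
    (∑ v ∈ S, D v + Module.finrank ℚ K * C₀) C' e k hk
    (fun k hk => by
      have := (abs_le.1 (hstep k hk)).2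
      linarith)
    (fun k hk => by
      have := (abs_le.1 (hC' k hk)).2
      linarith) (he k hk)
  have h2 := KPOT_limit (fun k => -KPOT_V x S U Ui k) (fun k => -Height.logHeight₁ (x k))
    (∑ v ∈ S, D v + Module.finrank ℚ K * C₀) C' (-e) k hk
    (fun k hk => by
      have := (abs_le.1 (hstep k hk)).1
      linarith)
    (fun k hk => by
      have := (abs_le.1 (hC' k hk)).1
      linarith) (by
      have h := (he k hk).neg
      have e1 : (fun n : ℕ => -Height.logHeight₁ (x (k * 2 ^ n)) / 4 ^ n) =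
          fun n : ℕ => -(Height.logHeight₁ (x (k * 2 ^ n)) / 4 ^ n) := by
        funext n
        rw [neg_div]
      rw [e1, mul_neg]
      exact h)
  rw [← kpot2_value x S U Ui k T hT hout, abs_le]
  constructor
  · linarith
  · linarith

end Pool.Agent.Helper92.LV
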